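import Pool.Agent.Lib.MP_923aff_ag.TF
import Pool.Agent.Lib.MP_923aff_ag.GITF
import Pool.Agent.Lib.MP_923aff_ag.GITS
/-!
# The class of the moduli space of rational maps of the projective line

For every `d ≥ 2` the class of the moduli space `M_d^1 = Spec k[Rat_d]^(PGL₂)` of rational maps of degree `d` in
`K₀(Var_k)` equals the class of affine space of dimension `2 d - 2` (`k` algebraically closed of characteristic
zero, for instance `k = ℂ`).
-/

set_option autoImplicit false

namespace Pool.Agent.Results.MP_923aff_ag.MotivicClass

open Pool.Agent.MRat AlgebraicGeometry CategoryTheory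

/-- First part: the `k`-points of the open subscheme `ratOpen k d` of `𝔸^(2d+2)` are the pairs of binary forms of
degree `d` without common zero. Second part: the ring `invRat k d` of the regular functions on the cone over `Rat_d`
which are constant on the conjugacy classes is a finitely generated `k`-algebra, its spectrum `modSpace k d` (the
moduli space `M_d^1`) is an orbit space, and its class is that of `𝔸^(2d-2)`. Third part: the same holds for the class
of any variety `M` which is an orbit space: there is a morphism `π : ratOpen k d → M` over `k` such that every closed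
point of `M` is the image of a `k`-point, and two `k`-points have the same image iff the corresponding rational maps
are conjugate under `PGL₂`. -/
theorem result (k : Type) [Field k] [IsAlgClosed k] [CharZero k] (d : ℕ) (hd : 2 ≤ d) :
    (∀ x : Fin ((d + 1) + (d + 1)) → k, ptA k x ∈ ratOpen k d ↔ x ∈ RatSet k d) ∧
    (∃ h : Algebra.FiniteType k (invRat k d),
      (∃ π : (ratOpen k d).toScheme ⟶ (modSpace k d h).X,
        IsOrbitMap (ratOpen k d) (RatConj k d) (modSpace k d h) π) ∧
      (modSpace k d h).cl = (Var.aff k (2 * d - 2)).cl) ∧
    ∀ (M : Var k) (π : (ratOpen k d).toScheme ⟶ M.X),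
      IsOrbitMap (ratOpen k d) (RatConj k d) M π → M.cl = (Var.aff k (2 * d - 2)).cl := by
  have h3 : ∀ (M : Var k) (π : (ratOpen k d).toScheme ⟶ M.X),
      IsOrbitMap (ratOpen k d) (RatConj k d) M π → M.cl = (Var.aff k (2 * d - 2)).cl :=
    fun M π h => sch_final k (mainStatement k) d hd M π h.1 h.2.1 h.2.2
  obtain ⟨hft, hχ, hsep⟩ := git_rat (k := k) d hd
  obtain ⟨π, hπ⟩ := git_scheme d hd hft hχ hsep
  exact ⟨fun x => mem_ratOpen d x, ⟨hft, ⟨π, hπ⟩, h3 _ π hπ⟩, h3⟩

end Pool.Agent.Results.MP_923aff_ag.MotivicClass
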